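import Pool.Agent.H174.GP.StA

/-!
# Project GP (helper174): the Erdős–Gallai condition in Durfee coordinates
-/

open MeasureTheory ProbabilityTheory Finset

namespace Pool.Agent.H658.GP174

open Pool.Agent.H174.GP

/-! ### Lists -/

theorem grM_list (L : List ℕ) (hL : L.Pairwise (· ≥ ·)) :
    GrM (L : Multiset ℕ) ↔
      ∃ (G : SimpleGraph (Fin L.length)) (_ : DecidableRel G.Adj), ∀ v, G.degree v = L.get v := by
  constructor
  · intro h
    have h' : ∃ (G : SimpleGraph (Fin L.length)) (_ : DecidableRel G.Adj),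
      (Finset.univ : Finset (Fin L.length)).val.map (fun v => G.degree v) = (L : Multiset ℕ) := h
    obtain ⟨G, hG, h0⟩ := h'
    rw [Fin.univ_val_map] at h0
    have hperm := Multiset.coe_eq_coe.mp h0
    have hanti : ∀ i j : Fin L.length, i ≤ j →
        G.degree (Tuple.sort (fun v => OrderDual.toDual (G.degree v)) j) ≤
          G.degree (Tuple.sort (fun v => OrderDual.toDual (G.degree v)) i) :=
      fun i j hij => Tuple.monotone_sort (fun v => OrderDual.toDual (G.degree v)) hij
    generalize Tuple.sort (fun v => OrderDual.toDual (G.degree v)) = σ at hanti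
    have hp : (List.ofFn ((fun v => G.degree v) ∘ σ)).Pairwise (· ≥ ·) :=
      List.pairwise_ofFn.mpr (fun i j hij => hanti i j hij.le)
    have hq : (List.ofFn ((fun v => G.degree v) ∘ σ)).Perm L :=
      (σ.ofFn_comp_perm _).trans hperm
    have e : List.ofFn ((fun v => G.degree v) ∘ σ) = L := hq.eq_of_pairwise' hp hL
    have e2 : (fun v => G.degree v) ∘ σ = L.get :=
      List.ofFn_injective (by rw [e, List.ofFn_get])
    refine ⟨G.comap σ, fun a b => hG (σ a) (σ b), fun v => ?_⟩
    rw [← (SimpleGraph.Iso.comap σ G).degree_eq v, ← e2]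
    rfl
  · rintro ⟨G, hG, h0⟩
    have h' : ∃ (G : SimpleGraph (Fin L.length)) (_ : DecidableRel G.Adj),
        (Finset.univ : Finset (Fin L.length)).val.map (fun v => G.degree v) =
          (L : Multiset ℕ) := by
      refine ⟨G, hG, ?_⟩
      have e : (fun v => G.degree v) = L.get := funext h0
      rw [Fin.univ_val_map, e, List.ofFn_get]
    exact h'

theorem sum_drop_get (L : List ℕ) (k : ℕ) (φ : ℕ → ℕ) :
    ∑ i ∈ univ.filter (fun i : Fin L.length => k ≤ (i : ℕ)), φ (L.get i) =
      ((L.drop k).map φ).sum := by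
  have h1 : L.map φ = List.ofFn (fun i : Fin L.length => φ (L.get i)) := by
    conv_lhs => rw [← List.ofFn_get L]
    rw [List.map_ofFn]
    rfl
  have h2 : ((L.map φ).take k).sum =
      ∑ i ∈ univ.filter (fun i : Fin L.length => (i : ℕ) < k), φ (L.get i) := by
    rw [h1, List.sum_take_ofFn]
  have h3 : (L.map φ).sum = ∑ i : Fin L.length, φ (L.get i) := by
    rw [h1, List.sum_ofFn]
  have h4 := List.sum_take_add_sum_drop (L.map φ) k
  have h5 := Finset.sum_filter_add_sum_filter_not (univ : Finset (Fin L.length))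
    (fun i : Fin L.length => (i : ℕ) < k) (fun i => φ (L.get i))
  have h6 : (univ.filter (fun i : Fin L.length => ¬ (i : ℕ) < k)) =
      univ.filter (fun i : Fin L.length => k ≤ (i : ℕ)) := by
    apply Finset.filter_congr
    intro i _
    exact not_lt
  rw [h6] at h5
  rw [List.map_drop]
  omega

theorem eg_list (h1 : S_EGn) (h2 : S_EGs) (L : List ℕ) (hL : L.Pairwise (· ≥ ·)) :
    GrM (L : Multiset ℕ) ↔ Even L.sum ∧ ∀ k ≤ L.length,
      (L.take k).sum ≤ k * (k - 1) + ((L.drop k).map (fun x => min x k)).sum := by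
  rw [grM_list L hL]
  have e1 : ∑ i, L.get i = L.sum := by
    conv_rhs => rw [← List.ofFn_get L]
    rw [List.sum_ofFn]
  have e2 : ∀ k : ℕ, ∑ i ∈ univ.filter (fun i : Fin L.length => (i : ℕ) < k), L.get i =
      (L.take k).sum := by
    intro k
    conv_rhs => rw [← List.ofFn_get L]
    rw [List.sum_take_ofFn]
  have e3 : (Even (∑ i, L.get i) ∧ ∀ k ≤ L.length,
      ∑ i ∈ univ.filter (fun i : Fin L.length => (i : ℕ) < k), L.get i
      ≤ k * (k - 1) + ∑ i ∈ univ.filter (fun i : Fin L.length => k ≤ (i : ℕ)), min (L.get i) k) ↔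
      (Even L.sum ∧ ∀ k ≤ L.length,
      (L.take k).sum ≤ k * (k - 1) + ((L.drop k).map (fun x => min x k)).sum) := by
    rw [e1]
    refine and_congr Iff.rfl (forall_congr' fun k => ?_)
    rw [e2, sum_drop_get L k (fun x => min x k)]
  rw [← e3]
  constructor
  · exact h1 L.length L.get
  · intro h
    refine h2 L.length L.get ?_ h
    intro i j hij
    rcases eq_or_lt_of_le hij with rfl | hlt
    · exact le_rfl
    · exact List.pairwise_iff_get.mp hL i j hlt

theorem sum_eq_of_forall (l : List ℕ) (a : ℕ) (h : ∀ x ∈ l, x = a) : l.sum = l.length * a := by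
  induction l with
  | nil => rw [List.sum_nil, List.length_nil, Nat.zero_mul]
  | cons x l ih =>
    rw [List.sum_cons, List.length_cons, ih (fun y hy => h y (List.mem_cons_of_mem _ hy)),
      h x List.mem_cons_self]
    ring

theorem sum_le_of_forall (l : List ℕ) (a : ℕ) (h : ∀ x ∈ l, x ≤ a) : l.sum ≤ l.length * a := by
  induction l with
  | nil => rw [List.sum_nil, List.length_nil, Nat.zero_mul]
  | cons x l ih =>
    rw [List.sum_cons, List.length_cons]
    have h1 := ih (fun y hy => h y (List.mem_cons_of_mem _ hy))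
    have h2 := h x List.mem_cons_self
    calc x + l.sum ≤ a + l.length * a := add_le_add h2 h1
      _ = (l.length + 1) * a := by ring

theorem map_min_id (l : List ℕ) (k : ℕ) (h : ∀ x ∈ l, x ≤ k) :
    l.map (fun x => min x k) = l := by
  conv_rhs => rw [← List.map_id l]
  apply List.map_congr_left
  intro x hx
  exact min_eq_left (h x hx)

/-- The first `d` inequalities suffice. -/
theorem append_crit (d : ℕ) (A B : List ℕ) (hA : A.length = d) (hAd : ∀ x ∈ A, d ≤ x)
    (hB : ∀ x ∈ B, x ≤ d) :
    (∀ k ≤ (A ++ B).length, ((A ++ B).take k).sum ≤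
        k * (k - 1) + (((A ++ B).drop k).map (fun x => min x k)).sum) ↔
      ∀ k ∈ Finset.Icc 1 d, (A.take k).sum ≤
        k * (k - 1) + ((d - k) * k + (B.map (fun x => min x k)).sum) := by
  have key : ∀ k ≤ d, (((A ++ B).take k).sum ≤
        k * (k - 1) + (((A ++ B).drop k).map (fun x => min x k)).sum ↔ (A.take k).sum ≤
        k * (k - 1) + ((d - k) * k + (B.map (fun x => min x k)).sum)) := by
    intro k hk
    have h1 : (A ++ B).take k = A.take k := List.take_append_of_le_length (by omega)
    have h2 : (A ++ B).drop k = A.drop k ++ B := List.drop_append_of_le_length (by omega)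
    have h3 : ((A.drop k).map (fun x => min x k)).sum = (d - k) * k := by
      rw [sum_eq_of_forall _ k]
      · rw [List.length_map, List.length_drop, hA]
      · intro x hx
        obtain ⟨y, hy, rfl⟩ := List.mem_map.mp hx
        have := hAd y (List.mem_of_mem_drop hy)
        exact min_eq_right (by omega)
    rw [h1, h2, List.map_append, List.sum_append, h3]
  constructor
  · intro h k hk
    rw [Finset.mem_Icc] at hk
    refine (key k hk.2).mp (h k ?_)
    rw [List.length_append]
    omega
  · intro h k hk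
    rcases Nat.eq_zero_or_pos k with rfl | hk0
    · rw [List.take_zero, List.sum_nil]
      exact Nat.zero_le _
    rcases le_or_gt k d with hkd | hkd
    · exact (key k hkd).mpr (h k (Finset.mem_Icc.mpr ⟨hk0, hkd⟩))
    · obtain ⟨m, rfl⟩ := Nat.exists_eq_add_of_lt hkd
      have hd : (A.take d).sum ≤ d * (d - 1) + ((d - d) * d + (B.map (fun x => min x d)).sum) := by
        rcases Nat.eq_zero_or_pos d with rfl | hd0
        · rw [List.take_zero, List.sum_nil]
          exact Nat.zero_le _
        · exact h d (Finset.mem_Icc.mpr ⟨hd0, le_rfl⟩)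
      have t1 : A.take d = A := List.take_of_length_le (by omega)
      rw [t1, map_min_id B d hB, Nat.sub_self, Nat.zero_mul, Nat.zero_add] at hd
      have t2 : (A ++ B).take (d + m + 1) = A ++ B.take (m + 1) := by
        rw [← hA, Nat.add_assoc, List.take_length_add_append]
      have t3 : (A ++ B).drop (d + m + 1) = B.drop (m + 1) := by
        rw [← hA, Nat.add_assoc, List.drop_length_add_append]
      rw [t2, t3, List.sum_append, map_min_id (B.drop (m + 1)) _ (fun x hx => by
        have := hB x (List.mem_of_mem_drop hx)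
        omega)]
      have t4 := List.sum_take_add_sum_drop B (m + 1)
      have t5 : (B.take (m + 1)).sum ≤ (m + 1) * d := by
        have u1 := sum_le_of_forall (B.take (m + 1)) d
          (fun x hx => hB x (List.mem_of_mem_take hx))
        have u2 : (B.take (m + 1)).length ≤ m + 1 := List.length_take_le _ _
        exact u1.trans (Nat.mul_le_mul_right d u2)
      have t6 : (d + m + 1) * (d + m + 1 - 1) = d * (d - 1) + 2 * ((m + 1) * d) + m * (m + 1) := by
        rcases Nat.eq_zero_or_pos d with rfl | hd0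
        · have : (0 + m + 1 - 1 : ℕ) = m := by omega
          rw [this]
          ring
        · obtain ⟨e, rfl⟩ := Nat.exists_eq_add_of_lt hd0
          have u1 : (0 + e + 1 - 1 : ℕ) = e := by omega
          have u2 : (0 + e + 1 + m + 1 - 1 : ℕ) = e + m + 1 := by omega
          rw [u1, u2]
          ring
      rw [t6]
      have t7 : 0 ≤ m * (m + 1) := Nat.zero_le _
      omega

/-! ### The sums -/

/-- number of the `i < k` with `i ≤ l` -/
theorem card_aux (d k : ℕ) (hk : k ≤ d) (l : Fin d) :
    (univ.filter (fun i : Fin d => (i : ℕ) < k ∧ i ≤ l)).card = min ((l : ℕ) + 1) k := by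
  have h1 : univ.filter (fun i : Fin d => (i : ℕ) < k ∧ i ≤ l) =
      univ.filter (fun i : Fin d => (i : ℕ) < min ((l : ℕ) + 1) k) := by
    apply Finset.filter_congr
    intro i _
    rw [Fin.le_def, lt_min_iff]
    omega
  rw [h1, Fin.card_filter_val_lt]
  have := l.isLt
  omega

theorem top_sum (d k : ℕ) (hk : k ≤ d) (g : Fin d → ℕ) :
    ((List.ofFn (topP d g)).take k).sum = k * d + ∑ l : Fin d, min ((l : ℕ) + 1) k * g l := by
  rw [List.sum_take_ofFn]
  unfold topP
  rw [Finset.sum_add_distrib]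
  have h1 : ∑ _i ∈ univ.filter (fun i : Fin d => (i : ℕ) < k), d = k * d := by
    rw [Finset.sum_const, Fin.card_filter_val_lt, min_eq_right hk, smul_eq_mul]
  rw [h1]
  have h2 : ∀ i : Fin d, ∑ l ∈ univ.filter (fun l : Fin d => i ≤ l), g l =
      ∑ l : Fin d, if i ≤ l then g l else 0 := by
    intro i
    rw [Finset.sum_filter]
  rw [Finset.sum_congr rfl (fun i _ => h2 i), Finset.sum_comm]
  have h3 : ∀ l : Fin d, ∑ i ∈ univ.filter (fun i : Fin d => (i : ℕ) < k),
      (if i ≤ l then g l else 0) = min ((l : ℕ) + 1) k * g l := by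
    intro l
    rw [← Finset.sum_filter, Finset.sum_const, smul_eq_mul, Finset.filter_filter,
      card_aux d k hk l]
  rw [Finset.sum_congr rfl (fun l _ => h3 l)]

theorem low_sum (d : ℕ) (h : Fin d → ℕ) (φ : ℕ → ℕ) :
    ((∑ l : Fin d, Multiset.replicate (h l) ((l : ℕ) + 1)).map φ).sum =
      ∑ l : Fin d, φ ((l : ℕ) + 1) * h l := by
  have h1 : (∑ l : Fin d, Multiset.replicate (h l) ((l : ℕ) + 1)).map φ =
      ∑ l : Fin d, Multiset.replicate (h l) (φ ((l : ℕ) + 1)) := by
    have := map_sum (Multiset.mapAddMonoidHom φ)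
      (fun l : Fin d => Multiset.replicate (h l) ((l : ℕ) + 1)) univ
    rw [Multiset.coe_mapAddMonoidHom] at this
    rw [this]
    exact Finset.sum_congr rfl (fun l _ => Multiset.map_replicate _ _ _)
  rw [h1, Multiset.sum_sum]
  apply Finset.sum_congr rfl
  intro l _
  rw [Multiset.sum_replicate, smul_eq_mul, mul_comm]

theorem topP_anti (d : ℕ) (g : Fin d → ℕ) (i j : Fin d) (hij : i ≤ j) :
    topP d g j ≤ topP d g i := by
  unfold topP
  apply Nat.add_le_add_left
  apply Finset.sum_le_sum_of_subset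
  intro l hl
  rw [Finset.mem_filter] at hl ⊢
  exact ⟨hl.1, hij.trans hl.2⟩

theorem gp_crit (h1 : S_EGn) (h2 : S_EGs) (_h3 : S_toPsum) : Pool.Agent.H174.GP.S_Crit := by
  intro d g h _hd
  have hlow : ∀ x ∈ (∑ l : Fin d, Multiset.replicate (h l) ((l : ℕ) + 1)), x ≤ d := by
    intro x hx
    rw [Multiset.mem_sum] at hx
    obtain ⟨l, _, hl⟩ := hx
    rw [Multiset.eq_of_mem_replicate hl]
    exact l.isLt
  have hB0 : (((∑ l : Fin d, Multiset.replicate (h l) ((l : ℕ) + 1)).sort (· ≥ ·) : List ℕ) :
      Multiset ℕ) = ∑ l : Fin d, Multiset.replicate (h l) ((l : ℕ) + 1) :=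
    Multiset.sort_eq _ _
  have hB1 : ((∑ l : Fin d, Multiset.replicate (h l) ((l : ℕ) + 1)).sort
      (· ≥ ·)).Pairwise (· ≥ ·) := Multiset.pairwise_sort _ _
  generalize (∑ l : Fin d, Multiset.replicate (h l) ((l : ℕ) + 1)).sort (· ≥ ·) = B at hB0 hB1
  have hB : ∀ x ∈ B, x ≤ d := by
    intro x hx
    apply hlow
    rw [← hB0]
    exact Multiset.mem_coe.mpr hx
  have hA : ∀ x ∈ List.ofFn (topP d g), d ≤ x := by
    intro x hx
    obtain ⟨i, rfl⟩ := (List.mem_ofFn' _ _).mp hx
    unfold topP
    exact Nat.le_add_right _ _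
  have hL : (List.ofFn (topP d g) ++ B).Pairwise (· ≥ ·) := by
    rw [List.pairwise_append]
    refine ⟨List.pairwise_ofFn.mpr (fun i j hij => topP_anti d g i j hij.le), hB1, ?_⟩
    intro a ha b hb
    exact (hB b hb).trans (hA a ha)
  have hs : toP d g h = ((List.ofFn (topP d g) ++ B : List ℕ) : Multiset ℕ) := by
    unfold toP
    rw [← Multiset.coe_add, hB0, Fin.univ_val_map]
  have hBs : ∀ k : ℕ, (B.map (fun x => min x k)).sum = ∑ l : Fin d, min ((l : ℕ) + 1) k * h l := by
    intro k
    rw [← low_sum d h (fun x => min x k), ← hB0, Multiset.map_coe, Multiset.sum_coe]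
  rw [hs, eg_list h1 h2 _ hL, Multiset.sum_coe,
    append_crit d (List.ofFn (topP d g)) B (List.length_ofFn) hA hB]
  refine and_congr Iff.rfl (forall_congr' fun k => forall_congr' fun hk => ?_)
  rw [Finset.mem_Icc] at hk
  rw [top_sum d k hk.2 g, hBs k]
  have e1 : ∑ i : Fin d, ((min ((i : ℕ) + 1) k : ℕ) : ℤ) * ((h i : ℤ) - (g i : ℤ)) =
      ((∑ l : Fin d, min ((l : ℕ) + 1) k * h l : ℕ) : ℤ) -
        ((∑ l : Fin d, min ((l : ℕ) + 1) k * g l : ℕ) : ℤ) := by
    rw [Nat.cast_sum, Nat.cast_sum, ← Finset.sum_sub_distrib]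
    apply Finset.sum_congr rfl
    intro l _
    rw [Nat.cast_mul, Nat.cast_mul]
    ring
  rw [e1]
  obtain ⟨e, rfl⟩ := Nat.exists_eq_add_of_le hk.2
  obtain ⟨f, rfl⟩ := Nat.exists_eq_add_of_le hk.1
  generalize (∑ l : Fin (1 + f + e), min ((l : ℕ) + 1) (1 + f) * h l) = X
  generalize (∑ l : Fin (1 + f + e), min ((l : ℕ) + 1) (1 + f) * g l) = Y
  have u1 : 1 + f + e - (1 + f) = e := by omega
  have u2 : 1 + f - 1 = f := by omega
  have u3 : (1 + f) * (1 + f + e) = (1 + f) * f + e * (1 + f) + (1 + f) := by ring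
  rw [u1, u2, u3]
  push_cast
  constructor
  · intro hh
    have : (1 + f) * f + e * (1 + f) + (1 + f) + Y ≤ (1 + f) * f + (e * (1 + f) + X) := hh
    have h4 : 1 + f + Y ≤ X := by omega
    have h5 : ((1 + f + Y : ℕ) : ℤ) ≤ (X : ℤ) := by exact_mod_cast h4
    push_cast at h5
    linarith
  · intro hh
    have h5 : ((1 + f + Y : ℕ) : ℤ) ≤ (X : ℤ) := by
      push_cast
      linarith
    have h4 : 1 + f + Y ≤ X := by exact_mod_cast h5
    omega

end Pool.Agent.H658.GP174
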