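import Pool.Agent.H174.GP.StE

/-! Project GP (helper174): `S_DU`, upper bound for one pair of Durfee sizes. -/

open MeasureTheory ProbabilityTheory Finset Filter Topology

namespace Pool.Agent.H658.GP174

open Pool.Agent.H174.GP

/-- `FS` with the two sequences swapped -/
def duFS (d : ℕ) (e : ℝ) : Set ((ℕ → ℕ) × (ℕ → ℕ)) := {p | (p.2, p.1) ∈ FS d e}

theorem du_dep (d : ℕ) (e : ℝ) : DepZI (Finset.Icc 2 ⌊(d : ℝ) ^ (1 - e)⌋₊) (FS d e) := by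
  intro p p' h hp k hk
  have h1 := hp k hk
  have h2 : ∑ j ∈ Finset.Icc 2 ⌊(d : ℝ) ^ (1 - e)⌋₊,
        ((min j k : ℕ) : ℝ) * ((p'.1 j : ℝ) - (p'.2 j : ℝ))
      = ∑ j ∈ Finset.Icc 2 ⌊(d : ℝ) ^ (1 - e)⌋₊,
        ((min j k : ℕ) : ℝ) * ((p.1 j : ℝ) - (p.2 j : ℝ)) := by
    apply Finset.sum_congr rfl
    intro j hj
    rw [(h j hj).1, (h j hj).2]
  rw [h2]
  exact h1

theorem du_dep' (d : ℕ) (e : ℝ) : DepZI (Finset.Icc 2 ⌊(d : ℝ) ^ (1 - e)⌋₊) (duFS d e) := by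
  intro p p' h hp
  exact du_dep d e (p.2, p.1) (p'.2, p'.1) (fun j hj => ⟨(h j hj).2, (h j hj).1⟩) hp

theorem du_swap (s : Set ((ℕ → ℝ) × (ℕ → ℝ))) :
    (PP.prod PP).real {p | (p.2, p.1) ∈ s} = (PP.prod PP).real s := by
  have h1 : MeasurePreserving (MeasurableEquiv.prodComm : (ℕ → ℝ) × (ℕ → ℝ) ≃ᵐ (ℕ → ℝ) × (ℕ → ℝ))
      (PP.prod PP) (PP.prod PP) := Measure.measurePreserving_swap
  have h2 := h1.measure_preimage_equiv s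
  rw [measureReal_def, measureReal_def, ← h2]
  rfl

theorem du_fst (s : Set ((ℕ → ℝ) × (ℕ → ℝ))) :
    Q4.real {q | q.1 ∈ s} = (PP.prod PP).real s := by
  have h1 : {q : ((ℕ → ℝ) × (ℕ → ℝ)) × ((ℕ → ℝ) × (ℕ → ℝ)) | q.1 ∈ s} = s ×ˢ Set.univ := by
    ext q
    simp
  rw [h1, Q4, measureReal_prod_prod]
  simp

theorem du_snd (s : Set ((ℕ → ℝ) × (ℕ → ℝ))) :
    Q4.real {q | q.2 ∈ s} = (PP.prod PP).real s := by
  have h1 : {q : ((ℕ → ℝ) × (ℕ → ℝ)) × ((ℕ → ℝ) × (ℕ → ℝ)) | q.2 ∈ s} = Set.univ ×ˢ s := by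
    ext q
    simp
  rw [h1, Q4, measureReal_prod_prod]
  simp

theorem du_sqrt_rpow (n a : ℝ) (hn : 0 ≤ n) : (Real.sqrt n) ^ a = n ^ (a / 2) := by
  rw [Real.sqrt_eq_rpow, ← Real.rpow_mul hn]
  congr 1
  ring

theorem du_pow_up {θ ε c1 n d : ℝ} (hθ : 0 ≤ θ) (hε : 0 ≤ ε) (hc1 : 0 < c1) (hn : 1 ≤ n)
    (h1 : c1 * Real.sqrt n ≤ d) (h2 : d ≤ Real.sqrt n) :
    d ^ (-θ + ε) ≤ c1 ^ (-θ) * n ^ (-θ / 2 + ε / 2) := by
  have hn0 : 0 < n := by linarith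
  have hs : 0 < Real.sqrt n := Real.sqrt_pos.mpr hn0
  have hcs : 0 < c1 * Real.sqrt n := mul_pos hc1 hs
  have hd : 0 < d := lt_of_lt_of_le hcs h1
  have e1 : d ^ (-θ) ≤ c1 ^ (-θ) * n ^ (-θ / 2) := by
    calc d ^ (-θ) ≤ (c1 * Real.sqrt n) ^ (-θ) :=
          Real.rpow_le_rpow_of_nonpos hcs h1 (by linarith)
      _ = c1 ^ (-θ) * n ^ (-θ / 2) := by
          rw [Real.mul_rpow hc1.le hs.le, du_sqrt_rpow n (-θ) hn0.le]
  have e2 : d ^ ε ≤ n ^ (ε / 2) := by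
    calc d ^ ε ≤ (Real.sqrt n) ^ ε := Real.rpow_le_rpow hd.le h2 hε
      _ = n ^ (ε / 2) := du_sqrt_rpow n ε hn0.le
  rw [Real.rpow_add hd, Real.rpow_add hn0]
  calc d ^ (-θ) * d ^ ε ≤ (c1 ^ (-θ) * n ^ (-θ / 2)) * n ^ (ε / 2) :=
        mul_le_mul e1 e2 (Real.rpow_nonneg hd.le _)
          (mul_nonneg (Real.rpow_nonneg hc1.le _) (Real.rpow_nonneg hn0.le _))
    _ = c1 ^ (-θ) * (n ^ (-θ / 2) * n ^ (ε / 2)) := by ring

theorem du_pow_lo {ε n d : ℝ} (hε : 0 ≤ ε) (hn : 1 ≤ n) (hd : 0 < d) (h2 : d ≤ Real.sqrt n) :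
    d ^ (-(3 / 2) : ℝ) * n ^ (-(ε / 2)) ≤ d ^ (-(3 / 2) - ε) := by
  have hn0 : 0 < n := by linarith
  have e2 : n ^ (-(ε / 2)) ≤ d ^ (-ε) := by
    calc n ^ (-(ε / 2)) = (Real.sqrt n) ^ (-ε) := by
          rw [du_sqrt_rpow n (-ε) hn0.le]
          congr 1
          ring
      _ ≤ d ^ (-ε) := Real.rpow_le_rpow_of_nonpos hd h2 (by linarith)
  have e3 : d ^ (-(3 / 2) - ε) = d ^ (-(3 / 2) : ℝ) * d ^ (-ε) := by
    rw [← Real.rpow_add hd]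
    congr 1
  rw [e3]
  exact mul_le_mul_of_nonneg_left e2 (Real.rpow_nonneg hd.le _)

theorem du_pow_34 {n d : ℝ} (hn : 1 ≤ n) (hd : 0 < d) (h2 : d ≤ Real.sqrt n) :
    n ^ (-(3 / 4) : ℝ) ≤ d ^ (-(3 / 2) : ℝ) := by
  have hn0 : 0 < n := by linarith
  calc n ^ (-(3 / 4) : ℝ) = (Real.sqrt n) ^ (-(3 / 2) : ℝ) := by
        rw [du_sqrt_rpow n (-(3 / 2)) hn0.le]
        congr 1
        norm_num
    _ ≤ d ^ (-(3 / 2) : ℝ) := Real.rpow_le_rpow_of_nonpos hd h2 (by norm_num)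

/-- the final arithmetic -/
theorem du_arith {θ ε c1 C4 n d d' P1 P2 B1 B2 q a a' : ℝ} (hθ : 0 ≤ θ) (hε : 0 < ε) (hc1 : 0 < c1)
    (hn : 1 ≤ n) (h1 : c1 * Real.sqrt n ≤ d) (h2 : d ≤ Real.sqrt n) (h1' : c1 * Real.sqrt n ≤ d')
    (h2' : d' ≤ Real.sqrt n) (hP1 : P1 ≤ d ^ (-θ + ε / 4)) (hP2 : P2 ≤ d ^ (-θ + ε / 4))
    (_hP1 : 0 ≤ P1) (hP2' : 0 ≤ P2) (hB1 : B1 ≤ n ^ (-(θ + 2))) (hB2 : B2 ≤ n ^ (-(θ + 2)))
    (hq : q ≤ B1 + B2 + P1 * P2 * (C4 * d ^ (-(3 / 2) : ℝ)) * (C4 * d' ^ (-(3 / 2) : ℝ)))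
    (hC4 : 0 < C4)
    (ha : d ^ (-(3 / 2) - ε / 4 : ℝ) ≤ a) (ha' : d' ^ (-(3 / 2) - ε / 4 : ℝ) ≤ a')
    (hK : 2 + (c1 ^ (-θ)) ^ 2 * C4 ^ 2 ≤ n ^ (ε / 2)) :
    q ≤ n ^ (-θ + ε) * (a * a') := by
  have hn0 : 0 < n := by linarith
  have hs : 0 < Real.sqrt n := Real.sqrt_pos.mpr hn0
  have hcs : 0 < c1 * Real.sqrt n := mul_pos hc1 hs
  have hd : 0 < d := lt_of_lt_of_le hcs h1
  have hd' : 0 < d' := lt_of_lt_of_le hcs h1'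
  have eP := du_pow_up hθ (by linarith : (0 : ℝ) ≤ ε / 4) hc1 hn h1 h2
  have x1 := du_pow_34 hn hd h2
  have x2 := du_pow_34 hn hd' h2'
  have y1 := (du_pow_lo (by linarith : (0 : ℝ) ≤ ε / 4) hn hd h2).trans ha
  have y2 := (du_pow_lo (by linarith : (0 : ℝ) ≤ ε / 4) hn hd' h2').trans ha'
  have hX : 0 < d ^ (-(3 / 2) : ℝ) := Real.rpow_pos_of_pos hd _
  have hX' : 0 < d' ^ (-(3 / 2) : ℝ) := Real.rpow_pos_of_pos hd' _
  generalize d ^ (-(3 / 2) : ℝ) = X at *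
  generalize d' ^ (-(3 / 2) : ℝ) = X' at *
  have hM : 0 ≤ c1 ^ (-θ) * n ^ (-θ / 2 + ε / 4 / 2) :=
    mul_nonneg (Real.rpow_nonneg hc1.le _) (Real.rpow_nonneg hn0.le _)
  -- product of the two probabilities
  have f1 : P1 * P2 ≤ (c1 ^ (-θ)) ^ 2 * n ^ (-θ + ε / 4) := by
    calc P1 * P2 ≤ (c1 ^ (-θ) * n ^ (-θ / 2 + ε / 4 / 2)) * (c1 ^ (-θ) * n ^ (-θ / 2 + ε / 4 / 2)) :=
          mul_le_mul (hP1.trans eP) (hP2.trans eP) hP2' hM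
      _ = (c1 ^ (-θ)) ^ 2 * (n ^ (-θ / 2 + ε / 4 / 2) * n ^ (-θ / 2 + ε / 4 / 2)) := by ring
      _ = (c1 ^ (-θ)) ^ 2 * n ^ (-θ + ε / 4) := by
          rw [← Real.rpow_add hn0]
          congr 2
          ring
  have f2 : P1 * P2 * (C4 * X) * (C4 * X') ≤
      ((c1 ^ (-θ)) ^ 2 * C4 ^ 2) * (n ^ (-θ + ε / 4) * (X * X')) := by
    have e1 : P1 * P2 * (C4 * X) * (C4 * X') = P1 * P2 * (C4 ^ 2 * (X * X')) := by ring
    rw [e1]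
    calc P1 * P2 * (C4 ^ 2 * (X * X')) ≤ ((c1 ^ (-θ)) ^ 2 * n ^ (-θ + ε / 4)) * (C4 ^ 2 * (X * X')) :=
          mul_le_mul_of_nonneg_right f1 (by positivity)
      _ = _ := by ring
  have f3 : n ^ (-(θ + 2)) ≤ n ^ (-θ + ε / 4) * (X * X') := by
    have e1 : n ^ (-(3 / 4) : ℝ) * n ^ (-(3 / 4) : ℝ) ≤ X * X' :=
      mul_le_mul x1 x2 (Real.rpow_nonneg hn0.le _) hX.le
    rw [← Real.rpow_add hn0] at e1
    calc n ^ (-(θ + 2)) ≤ n ^ (-θ + ε / 4 + (-(3 / 4) + -(3 / 4))) :=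
          Real.rpow_le_rpow_of_exponent_le hn (by linarith)
      _ = n ^ (-θ + ε / 4) * n ^ (-(3 / 4) + -(3 / 4) : ℝ) := Real.rpow_add hn0 _ _
      _ ≤ n ^ (-θ + ε / 4) * (X * X') := mul_le_mul_of_nonneg_left e1 (Real.rpow_nonneg hn0.le _)
  have f4 : q ≤ (2 + (c1 ^ (-θ)) ^ 2 * C4 ^ 2) * (n ^ (-θ + ε / 4) * (X * X')) := by
    have e1 : (2 + (c1 ^ (-θ)) ^ 2 * C4 ^ 2) * (n ^ (-θ + ε / 4) * (X * X')) =
      n ^ (-θ + ε / 4) * (X * X') + n ^ (-θ + ε / 4) * (X * X') +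
      ((c1 ^ (-θ)) ^ 2 * C4 ^ 2) * (n ^ (-θ + ε / 4) * (X * X')) := by ring
    rw [e1]
    linarith
  have hXX : 0 ≤ n ^ (-θ + ε / 4) * (X * X') :=
    mul_nonneg (Real.rpow_nonneg hn0.le _) (mul_nonneg hX.le hX'.le)
  have f5 : q ≤ n ^ (ε / 2) * (n ^ (-θ + ε / 4) * (X * X')) :=
    f4.trans (mul_le_mul_of_nonneg_right hK hXX)
  have f6 : n ^ (ε / 2) * (n ^ (-θ + ε / 4) * (X * X')) =
      n ^ (-θ + ε) * ((X * n ^ (-(ε / 4 / 2))) * (X' * n ^ (-(ε / 4 / 2)))) := by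
    have e1 : n ^ (-θ + ε) * ((X * n ^ (-(ε / 4 / 2))) * (X' * n ^ (-(ε / 4 / 2)))) =
        (n ^ (-θ + ε) * n ^ (-(ε / 4 / 2)) * n ^ (-(ε / 4 / 2))) * (X * X') := by ring
    rw [e1, ← mul_assoc, ← Real.rpow_add hn0, ← Real.rpow_add hn0, ← Real.rpow_add hn0]
    congr 2
    ring
  rw [f6] at f5
  refine f5.trans (mul_le_mul_of_nonneg_left ?_ (Real.rpow_nonneg hn0.le _))
  have hy1 : 0 ≤ X * n ^ (-(ε / 4 / 2)) := mul_nonneg hX.le (Real.rpow_nonneg hn0.le _)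
  have hy2 : 0 ≤ X' * n ^ (-(ε / 4 / 2)) := mul_nonneg hX'.le (Real.rpow_nonneg hn0.le _)
  exact mul_le_mul y1 y2 hy2 (hy1.trans y1)

/-- the two parameters are close -/
theorem du_sig {C1 C c1 n d x y : ℝ} (hC1 : 0 < C1) (hC : 0 < C) (hc1 : 0 < c1) (hn : 1 ≤ n)
    (hd1 : 1 ≤ d) (hdc : 1 / c1 ≤ d) (h1 : c1 * Real.sqrt n ≤ d)
    (hx : x ≤ C * Real.sqrt (Real.sqrt n * Real.log n)) (hy : y ≤ C1 * x / d ^ 2) :
    y ≤ (C1 * C * Real.sqrt (4 / c1)) * Real.sqrt (Real.log d) * d ^ (-(3 / 2) : ℝ) := by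
  have hn0 : 0 < n := by linarith
  have hd : 0 < d := by linarith
  have hsn : Real.sqrt n ≤ d / c1 := by
    rw [le_div_iff₀ hc1]
    linarith
  have hsn2 : Real.sqrt n ≤ d ^ 2 := by
    calc Real.sqrt n ≤ d / c1 := hsn
      _ = d * (1 / c1) := by ring
      _ ≤ d * d := mul_le_mul_of_nonneg_left hdc hd.le
      _ = d ^ 2 := by ring
  have hnd : n ≤ d ^ 4 := by
    calc n = Real.sqrt n ^ 2 := (Real.sq_sqrt hn0.le).symm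
      _ ≤ (d ^ 2) ^ 2 := pow_le_pow_left₀ (Real.sqrt_nonneg _) hsn2 2
      _ = d ^ 4 := by ring
  have hlog : Real.log n ≤ 4 * Real.log d := by
    calc Real.log n ≤ Real.log (d ^ 4) := Real.log_le_log hn0 hnd
      _ = 4 * Real.log d := by
        rw [Real.log_pow]
        norm_num
  have hlogn : 0 ≤ Real.log n := Real.log_nonneg hn
  have hlogd : 0 ≤ Real.log d := Real.log_nonneg hd1
  have e1 : Real.sqrt (Real.sqrt n * Real.log n) ≤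
      Real.sqrt (4 / c1) * Real.sqrt (Real.log d) * Real.sqrt d := by
    rw [← Real.sqrt_mul (by positivity), ← Real.sqrt_mul (by positivity)]
    apply Real.sqrt_le_sqrt
    calc Real.sqrt n * Real.log n ≤ (d / c1) * (4 * Real.log d) :=
          mul_le_mul hsn hlog hlogn (by positivity)
      _ = 4 / c1 * Real.log d * d := by ring
  have e2 : Real.sqrt d / d ^ 2 = d ^ (-(3 / 2) : ℝ) := by
    rw [Real.sqrt_eq_rpow, ← Real.rpow_natCast d 2, ← Real.rpow_sub hd]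
    congr 1
    norm_num
  calc y ≤ C1 * x / d ^ 2 := hy
    _ ≤ C1 * (C * (Real.sqrt (4 / c1) * Real.sqrt (Real.log d) * Real.sqrt d)) / d ^ 2 := by
        apply div_le_div_of_nonneg_right _ (by positivity)
        apply mul_le_mul_of_nonneg_left _ hC1.le
        exact hx.trans (mul_le_mul_of_nonneg_left e1 hC.le)
    _ = (C1 * C * Real.sqrt (4 / c1)) * Real.sqrt (Real.log d) * (Real.sqrt d / d ^ 2) := by ring
    _ = _ := by rw [e2]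

theorem gp_du (h1 : S_B1r) (h2 : S_sigc) (h3 : S_Pr) (h4 : S_cnta2) (h5 : S_a2l) (h6 : S_DUa)
    (h7 : S_DU1) (h8 : S_DU2) (h9 : S_DU3) : Pool.Agent.H174.GP.S_DU := by
  intro θ c1 c2 C ε hθ hIs hc1 hc12 hc2 hC hε
  have hc2p : 0 < c2 := hc1.trans hc12
  obtain ⟨s1, hs1, s2, hs2, hB⟩ := h1 c1 c2 hc1 hc12 hc2
  obtain ⟨C1, hC1, hsig⟩ := h2 c1 c2 s1 s2 hc1 hc12 hc2 hs1 hs2
  have hr1 : 0 < c1 / c2 := div_pos hc1 hc2p
  have hr1' : c1 / c2 ≤ 1 := by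
    rw [div_le_one hc2p]
    exact hc12.le
  have hr2 : 1 ≤ c2 / c1 := by
    rw [one_le_div hc1]
    exact hc12.le
  obtain ⟨e, he, he1, d3, hDU3⟩ := h9 θ (s1 * (c1 / c2)) (s2 * (c2 / c1))
    (C1 * C * Real.sqrt (4 / c1)) (ε / 4) hθ hIs (by positivity) (by positivity)
    (by positivity) (by positivity)
  obtain ⟨n1, hDU1⟩ := h7 c1 c2 s1 s2 C e (θ + 2) hc1 hc12 hc2 hs1 hs2 hC he he1 (by linarith)
  obtain ⟨C4, hC4, d2, hDU2⟩ := h8 s1 s2 hs1 hs2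
  obtain ⟨ε5, hε5, d5, ha2⟩ := h5 s1 s2 (ε / 4) hs1 hs2 (by positivity)
  -- large d: `4 / c1 ≤ d ^ e`
  have hev : ∀ᶠ d : ℕ in atTop, 4 / c1 ≤ (d : ℝ) ^ e :=
    ((tendsto_rpow_atTop he).comp tendsto_natCast_atTop_atTop).eventually_ge_atTop (4 / c1)
  obtain ⟨dA, hdA⟩ := eventually_atTop.mp hev
  -- choice of n0
  have hevn : ∀ᶠ n : ℕ in atTop, ((max (max (max d3 d2) (max d5 dA)) 3 : ℕ) : ℝ) + 1 / c1 ≤
      c1 * Real.sqrt n := by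
    have ht : Tendsto (fun n : ℕ => c1 * Real.sqrt n) atTop atTop :=
      (Real.tendsto_sqrt_atTop.comp tendsto_natCast_atTop_atTop).const_mul_atTop hc1
    exact ht.eventually_ge_atTop _
  have hevK : ∀ᶠ n : ℕ in atTop, 2 + (c1 ^ (-θ)) ^ 2 * C4 ^ 2 ≤ (n : ℝ) ^ (ε / 2) :=
    ((tendsto_rpow_atTop (by positivity : 0 < ε / 2)).comp
      tendsto_natCast_atTop_atTop).eventually_ge_atTop _
  obtain ⟨n0, hn0⟩ := eventually_atTop.mp ((eventually_ge_atTop n1).and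
    ((eventually_ge_atTop 1).and (hevn.and hevK)))
  refine ⟨n0, ?_⟩
  intro n hn d d' hd1 hd2 hd1' hd2' hdd
  obtain ⟨hnn1, hn1, hnD, hnK⟩ := hn0 n hn
  have hn1R : (1 : ℝ) ≤ (n : ℝ) := by exact_mod_cast hn1
  have hs : 0 < Real.sqrt n := Real.sqrt_pos.mpr (by linarith)
  have hDd : ((max (max (max d3 d2) (max d5 dA)) 3 : ℕ) : ℝ) + 1 / c1 ≤ (d : ℝ) := hnD.trans hd1
  have hDd' : ((max (max (max d3 d2) (max d5 dA)) 3 : ℕ) : ℝ) + 1 / c1 ≤ (d' : ℝ) := hnD.trans hd1'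
  have hic : 0 < 1 / c1 := by positivity
  have hMd : max (max (max d3 d2) (max d5 dA)) 3 ≤ d := by
    have : ((max (max (max d3 d2) (max d5 dA)) 3 : ℕ) : ℝ) ≤ (d : ℝ) := by linarith
    exact_mod_cast this
  have hMd' : max (max (max d3 d2) (max d5 dA)) 3 ≤ d' := by
    have : ((max (max (max d3 d2) (max d5 dA)) 3 : ℕ) : ℝ) ≤ (d' : ℝ) := by linarith
    exact_mod_cast this
  have hd3 : 3 ≤ d := (le_max_right _ _).trans hMd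
  have hd3' : 3 ≤ d' := (le_max_right _ _).trans hMd'
  have hdd3 : d3 ≤ d := ((le_max_left _ _).trans ((le_max_left _ _).trans (le_max_left _ _))).trans hMd
  have hdd2 : d2 ≤ d := ((le_max_right _ _).trans ((le_max_left _ _).trans (le_max_left _ _))).trans hMd
  have hdd2' : d2 ≤ d' :=
    ((le_max_right _ _).trans ((le_max_left _ _).trans (le_max_left _ _))).trans hMd'
  have hdd5 : d5 ≤ d := ((le_max_left _ _).trans ((le_max_right _ _).trans (le_max_left _ _))).trans hMd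
  have hdd5' : d5 ≤ d' :=
    ((le_max_left _ _).trans ((le_max_right _ _).trans (le_max_left _ _))).trans hMd'
  have hddA : dA ≤ d := ((le_max_right _ _).trans ((le_max_right _ _).trans (le_max_left _ _))).trans hMd
  clear hMd hMd'
  have hdR : (3 : ℝ) ≤ (d : ℝ) := by exact_mod_cast hd3
  have hdR' : (3 : ℝ) ≤ (d' : ℝ) := by exact_mod_cast hd3'
  have hdc : 1 / c1 ≤ (d : ℝ) := by
    have : (0 : ℝ) ≤ ((max (max (max d3 d2) (max d5 dA)) 3 : ℕ) : ℝ) := Nat.cast_nonneg _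
    linarith
  have hdsn : (d : ℝ) ≤ Real.sqrt n := by
    calc (d : ℝ) ≤ c2 * Real.sqrt n := hd2
      _ ≤ 1 * Real.sqrt n := mul_le_mul_of_nonneg_right hc2.le hs.le
      _ = Real.sqrt n := one_mul _
  have hdsn' : (d' : ℝ) ≤ Real.sqrt n := by
    calc (d' : ℝ) ≤ c2 * Real.sqrt n := hd2'
      _ ≤ 1 * Real.sqrt n := mul_le_mul_of_nonneg_right hc2.le hs.le
      _ = Real.sqrt n := one_mul _
  have hd2n : d ^ 2 ≤ n := by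
    have : (d : ℝ) ^ 2 ≤ (n : ℝ) := by
      calc (d : ℝ) ^ 2 ≤ Real.sqrt n ^ 2 := pow_le_pow_left₀ (by linarith) hdsn 2
        _ = n := Real.sq_sqrt (by linarith)
    exact_mod_cast this
  have hd2n' : d' ^ 2 ≤ n := by
    have : (d' : ℝ) ^ 2 ≤ (n : ℝ) := by
      calc (d' : ℝ) ^ 2 ≤ Real.sqrt n ^ 2 := pow_le_pow_left₀ (by linarith) hdsn' 2
        _ = n := Real.sq_sqrt (by linarith)
    exact_mod_cast this
  obtain ⟨σ, hσ, hmu, hσ1, hσ2⟩ := hB n d hn1 (by omega) hd1 hd2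
  obtain ⟨σ', hσ', hmu', hσ1', hσ2'⟩ := hB n d' hn1 (by omega) hd1' hd2'
  -- the ratio of `d` and `d'`
  have hrat1 : (d : ℝ) ≤ (c2 / c1) * d' := by
    calc (d : ℝ) ≤ c2 * Real.sqrt n := hd2
      _ = (c2 / c1) * (c1 * Real.sqrt n) := by field_simp
      _ ≤ (c2 / c1) * d' := mul_le_mul_of_nonneg_left hd1' (by positivity)
  have hrat2 : (c1 / c2) * (d' : ℝ) ≤ d := by
    calc (c1 / c2) * (d' : ℝ) ≤ (c1 / c2) * (c2 * Real.sqrt n) :=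
          mul_le_mul_of_nonneg_left hd2' hr1.le
      _ = c1 * Real.sqrt n := by field_simp
      _ ≤ d := hd1
  have hrat3 : c1 * (d : ℝ) ≤ d' := by
    calc c1 * (d : ℝ) ≤ c1 * Real.sqrt n := mul_le_mul_of_nonneg_left hdsn hc1.le
      _ ≤ d' := hd1'
  have t1 : s1 * (c1 / c2) ≤ σ * d := by
    calc s1 * (c1 / c2) ≤ s1 * 1 := mul_le_mul_of_nonneg_left hr1' hs1.le
      _ = s1 := mul_one _
      _ ≤ σ * d := hσ1
  have t2 : σ * d ≤ s2 * (c2 / c1) := by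
    calc σ * d ≤ s2 := hσ2
      _ = s2 * 1 := (mul_one _).symm
      _ ≤ s2 * (c2 / c1) := mul_le_mul_of_nonneg_left hr2 hs2.le
  have t3 : s1 * (c1 / c2) ≤ σ' * d := by
    calc s1 * (c1 / c2) ≤ (σ' * d') * (c1 / c2) := mul_le_mul_of_nonneg_right hσ1' hr1.le
      _ = σ' * ((c1 / c2) * d') := by ring
      _ ≤ σ' * d := mul_le_mul_of_nonneg_left hrat2 hσ'.le
  have t4 : σ' * d ≤ s2 * (c2 / c1) := by
    calc σ' * d ≤ σ' * ((c2 / c1) * d') := mul_le_mul_of_nonneg_left hrat1 hσ'.le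
      _ = (σ' * d') * (c2 / c1) := by ring
      _ ≤ s2 * (c2 / c1) := mul_le_mul_of_nonneg_right hσ2' (by positivity)
  have hss := du_sig hC1 hC hc1 hn1R (by linarith : (1 : ℝ) ≤ (d : ℝ)) hdc hd1 hdd
    (hsig n d d' σ σ' hn1 (by omega) (by omega) hd1 hd2 hd1' hd2' hσ hσ' hmu hmu' hσ1 hσ2 hσ1' hσ2')
  obtain ⟨hP1, hP2⟩ := hDU3 d hdd3 σ σ' hσ hσ' t1 t2 t3 t4 hss
  have hbad := hDU1 n hnn1 d d' σ σ' hd1 hd2 hd1' hd2' hσ hσ' hmu hmu' hσ1 hσ2 hσ1' hσ2' hdd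
  -- the floor
  have hde : 4 / c1 ≤ (d : ℝ) ^ e := hdA d hddA
  have hdpos : (0 : ℝ) < (d : ℝ) := by linarith
  have hL0 : (1 : ℝ) ≤ (d : ℝ) ^ (1 - e) := Real.one_le_rpow (by linarith) (by linarith)
  have hL1 : 1 ≤ ⌊(d : ℝ) ^ (1 - e)⌋₊ := by
    rw [Nat.one_le_floor_iff]
    exact hL0
  have hLc : 4 * (d : ℝ) ^ (1 - e) ≤ c1 * d := by
    have e1 : (d : ℝ) ^ (1 - e) * (d : ℝ) ^ e = d := by
      rw [← Real.rpow_add hdpos]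
      rw [sub_add_cancel, Real.rpow_one]
    have e2 : (d : ℝ) ^ (1 - e) * (4 / c1) ≤ d := by
      calc (d : ℝ) ^ (1 - e) * (4 / c1) ≤ (d : ℝ) ^ (1 - e) * (d : ℝ) ^ e :=
            mul_le_mul_of_nonneg_left hde (by linarith)
        _ = d := e1
    calc 4 * (d : ℝ) ^ (1 - e) = c1 * ((d : ℝ) ^ (1 - e) * (4 / c1)) := by field_simp
      _ ≤ c1 * d := mul_le_mul_of_nonneg_left e2 hc1.le
  have hfl : (⌊(d : ℝ) ^ (1 - e)⌋₊ : ℝ) ≤ (d : ℝ) ^ (1 - e) := Nat.floor_le (by linarith)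
  have hL4' : 4 * ⌊(d : ℝ) ^ (1 - e)⌋₊ ≤ d' := by
    have : (4 : ℝ) * (⌊(d : ℝ) ^ (1 - e)⌋₊ : ℝ) ≤ (d' : ℝ) := by linarith
    exact_mod_cast this
  have hL4 : 4 * ⌊(d : ℝ) ^ (1 - e)⌋₊ ≤ d := by
    have hcd : c1 * (d : ℝ) ≤ d := by
      calc c1 * (d : ℝ) ≤ 1 * d := mul_le_mul_of_nonneg_right (by linarith) hdpos.le
        _ = d := one_mul _
    have : (4 : ℝ) * (⌊(d : ℝ) ^ (1 - e)⌋₊ : ℝ) ≤ (d : ℝ) := by linarith
    exact_mod_cast this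
  have hD2 := hDU2 d d' σ σ' hdd2 hdd2' hσ hσ' hσ1 hσ2 hσ1' hσ2' ⌊(d : ℝ) ^ (1 - e)⌋₊ n (FS d e)
    (duFS d e) hL1 hL4 hL4' (du_dep d e) (du_dep' d e)
  -- the second set
  have hsw : (PP.prod PP).real {p : (ℕ → ℝ) × (ℕ → ℝ) |
        ((fun j => gs σ p.1 j), (fun j => gs σ' p.2 j)) ∈ duFS d e}
      = (PP.prod PP).real {p : (ℕ → ℝ) × (ℕ → ℝ) |
        ((fun j => gs σ' p.1 j), (fun j => gs σ p.2 j)) ∈ FS d e} :=
    du_swap {p : (ℕ → ℝ) × (ℕ → ℝ) | ((fun j => gs σ' p.1 j), (fun j => gs σ p.2 j)) ∈ FS d e}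
  rw [hsw] at hD2
  -- a2
  have hlogd : 0 ≤ Real.log (d : ℝ) := Real.log_nonneg (by linarith)
  have hlogd' : 0 ≤ Real.log (d' : ℝ) := Real.log_nonneg (by linarith)
  have hA : (d : ℝ) ^ (-(3 / 2) - ε / 4 : ℝ) ≤ a2 d σ ((n : ℤ) - (d : ℤ) ^ 2) := by
    apply ha2 d hdd5 σ hσ hσ1 hσ2
    have e1 : (((n : ℤ) - (d : ℤ) ^ 2 : ℤ) : ℝ) - 2 * mu d (σ / 2) = 0 := by
      push_cast
      linarith
    rw [e1, abs_zero]
    positivity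
  have hA' : (d' : ℝ) ^ (-(3 / 2) - ε / 4 : ℝ) ≤ a2 d' σ' ((n : ℤ) - (d' : ℤ) ^ 2) := by
    apply ha2 d' hdd5' σ' hσ' hσ1' hσ2'
    have e1 : (((n : ℤ) - (d' : ℤ) ^ 2 : ℤ) : ℝ) - 2 * mu d' (σ' / 2) = 0 := by
      push_cast
      linarith
    rw [e1, abs_zero]
    positivity
  -- the event
  have hQ : Q4.real {q | d ^ 2 + ∑ i : Fin d, ((i : ℕ) + 1) * (gF d σ q.1.1 i + gF d σ q.2.1 i) = n ∧
      d' ^ 2 + ∑ i : Fin d', ((i : ℕ) + 1) * (gF d' σ' q.1.2 i + gF d' σ' q.2.2 i) = n ∧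
      DomM (toP d' (gF d' σ' q.1.2) (gF d' σ' q.2.2)) (toP d (gF d σ q.1.1) (gF d σ q.2.1))}
      ≤ (PP.prod PP).real (BadS d d' σ σ' e) + (PP.prod PP).real (BadS d d' σ σ' e) +
        (PP.prod PP).real {p | ((fun j => gs σ p.1 j), (fun j => gs σ' p.2 j)) ∈ FS d e} *
        (PP.prod PP).real {p | ((fun j => gs σ' p.1 j), (fun j => gs σ p.2 j)) ∈ FS d e} *
        (C4 * (d : ℝ) ^ (-(3 / 2) : ℝ)) * (C4 * (d' : ℝ) ^ (-(3 / 2) : ℝ)) := by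
    have hsub : {q : ((ℕ → ℝ) × (ℕ → ℝ)) × ((ℕ → ℝ) × (ℕ → ℝ)) |
        d ^ 2 + ∑ i : Fin d, ((i : ℕ) + 1) * (gF d σ q.1.1 i + gF d σ q.2.1 i) = n ∧
        d' ^ 2 + ∑ i : Fin d', ((i : ℕ) + 1) * (gF d' σ' q.1.2 i + gF d' σ' q.2.2 i) = n ∧
        DomM (toP d' (gF d' σ' q.1.2) (gF d' σ' q.2.2)) (toP d (gF d σ q.1.1) (gF d σ q.2.1))} ⊆
        ({q | q.1 ∈ BadS d d' σ σ' e} ∪ {q | q.2 ∈ BadS d d' σ σ' e}) ∪
        {q | d ^ 2 + ∑ i : Fin d, ((i : ℕ) + 1) * (gF d σ q.1.1 i + gF d σ q.2.1 i) = n ∧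
          d' ^ 2 + ∑ i : Fin d', ((i : ℕ) + 1) * (gF d' σ' q.1.2 i + gF d' σ' q.2.2 i) = n ∧
          ((fun j => gs σ q.1.1 j), (fun j => gs σ' q.1.2 j)) ∈ FS d e ∧
          ((fun j => gs σ q.2.1 j), (fun j => gs σ' q.2.2 j)) ∈ duFS d e} := by
      intro q hq
      rcases h6 d d' n σ σ' e hd3 he he1 (by omega) (by omega) q hq.1 hq.2.1 hq.2.2 with h | h | h
      · exact Or.inl (Or.inl h)
      · exact Or.inl (Or.inr h)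
      · exact Or.inr ⟨hq.1, hq.2.1, h.1, h.2⟩
    refine (measureReal_mono hsub).trans ?_
    refine (measureReal_union_le _ _).trans ?_
    refine add_le_add ?_ hD2
    refine (measureReal_union_le _ _).trans ?_
    rw [du_fst, du_snd]
  have hfin := du_arith hθ hε hc1 hn1R hd1 hdsn hd1' hdsn' hP1 hP2 measureReal_nonneg
    measureReal_nonneg hbad hbad hQ hC4 hA hA' hnK
  rw [h3 d d' n σ σ' hσ hσ' hd2n hd2n', h4 d n σ hσ hd2n, h4 d' n σ' hσ' hd2n', Real.exp_add]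
  have hZ : 0 ≤ Real.exp (σ * ((n : ℝ) - (d : ℝ) ^ 2)) * Real.exp (σ' * ((n : ℝ) - (d' : ℝ) ^ 2)) *
      (Zf d σ) ^ 2 * (Zf d' σ') ^ 2 := by positivity
  refine (mul_le_mul_of_nonneg_left hfin hZ).trans (le_of_eq ?_)
  ring

end Pool.Agent.H658.GP174
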