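import Pool.Agent.H174.GP.StD

/-!
# Project GP (helper174): comparable versus dominated pairs of partitions
-/

open MeasureTheory ProbabilityTheory Finset Filter Topology

namespace Pool.Agent.H658.GP174

open Pool.Agent.H174.GP

/-- pairs with `p ⪯ q` -/
def DSet (n : ℕ) : Set (Nat.Partition n × Nat.Partition n) :=
  {pq | DomM pq.1.parts pq.2.parts}

/-- pairs with `q ⪯ p` -/
def DSet' (n : ℕ) : Set (Nat.Partition n × Nat.Partition n) :=
  {pq | DomM pq.2.parts pq.1.parts}

theorem card_D (n : ℕ) :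
    Nat.card {pq : Nat.Partition n × Nat.Partition n // DomM pq.1.parts pq.2.parts} =
      (DSet n).ncard := Nat.card_coe_set_eq (DSet n)

theorem card_U (n : ℕ) :
    Nat.card {pq : Nat.Partition n × Nat.Partition n //
      DomM pq.1.parts pq.2.parts ∨ DomM pq.2.parts pq.1.parts} = (DSet n ∪ DSet' n).ncard :=
  Nat.card_coe_set_eq (DSet n ∪ DSet' n)

theorem swap_D (n : ℕ) : DSet' n = Prod.swap '' DSet n := by
  ext ⟨p, q⟩
  constructor
  · intro h
    exact ⟨(q, p), h, rfl⟩
  · rintro ⟨⟨a, b⟩, h, e⟩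
    have h1 : b = p := congrArg Prod.fst e
    have h2 : a = q := congrArg Prod.snd e
    subst h1
    subst h2
    exact h

theorem card_D' (n : ℕ) : (DSet' n).ncard = (DSet n).ncard := by
  rw [swap_D, Set.ncard_image_of_injective _ Prod.swap_injective]

theorem gp_rc : Pool.Agent.H174.GP.S_rc := by
  intro n
  have h1 : (DSet n).ncard ≤ (DSet n ∪ DSet' n).ncard :=
    Set.ncard_le_ncard Set.subset_union_left (Set.toFinite _)
  have h2 : (DSet n ∪ DSet' n).ncard ≤ 2 * (DSet n).ncard := by
    have := Set.ncard_union_le (DSet n) (DSet' n)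
    rw [card_D'] at this
    omega
  have hc : (0 : ℝ) ≤ (Nat.card (Nat.Partition n) : ℝ) ^ 2 := sq_nonneg _
  unfold rcomp
  rw [card_D, card_U]
  constructor
  · apply div_le_div_of_nonneg_right _ hc
    exact_mod_cast h1
  · rw [← mul_div_assoc]
    apply div_le_div_of_nonneg_right _ hc
    exact_mod_cast h2

end Pool.Agent.H658.GP174
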